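import Pool.Agent.H71.FX.Targets3
import Pool.Agent.H70.PX.A1
import Pool.Agent.H32.PX.A2
import Pool.Agent.H32.PX.QA
import Pool.Agent.H32.PX.EN

/-!
# Tile systems and the prefix `∀∀` with one unary function and binary relations
-/

set_option autoImplicit false

namespace Pool.Agent.H36.FX

open Pool.Agent.H8.PL Pool.Agent.H71.FX Pool.Agent.H71.PF

/-- the terms -/
def sgT (i : ℕ) : ℕ → Tm
  | 1 => Tm.app i (k := 1) (fun _ => Tm.var 0)
  | 2 => Tm.var 1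
  | _ => Tm.var 0

theorem sgT_zero (i : ℕ) : sgT i 0 = Tm.var 0 := rfl

theorem sgT_one (i : ℕ) : sgT i 1 = Tm.app i (k := 1) (fun _ => Tm.var 0) := rfl

theorem sgT_two (i : ℕ) : sgT i 2 = Tm.var 1 := rfl

theorem sgT_voc (i j : ℕ) : (sgT i j).Voc (UF i) := by
  match j with
  | 0 => exact trivial
  | 1 => exact ⟨⟨rfl, rfl⟩, fun _ => trivial⟩
  | 2 => exact trivial
  | j + 3 => exact trivial

theorem sgT_vars (i j : ℕ) (hj : j < 3) : (sgT i j).Vars 2 := by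
  match j with
  | 0 => exact (by norm_num : (0 : ℕ) < 2)
  | 1 => exact fun _ => (by norm_num : (0 : ℕ) < 2)
  | 2 => exact (by norm_num : (1 : ℕ) < 2)
  | j + 3 => exact absurd hj (by omega)

/-- **The prefix `∀∀`, one unary function, binary relations.** -/
theorem pf_AF (tx : T_TX) : T_AF := by
  intro Q _ U Hh Vv i
  obtain ⟨e, he⟩ := Countable.exists_injective_nat Q
  obtain ⟨φ, hV, hB, hS⟩ := Pool.Agent.H32.PX.QA.pf_QA Q e U Hh Vv
  obtain ⟨ψ, hψV, hψB, hψS⟩ := tx φ (sgT i)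
  refine ⟨ψ, hψV 3 2 hV (sgT_vars i), hψB (UF i) (sgT_voc i) hB, fun n => ?_⟩
  have key : ∀ (f : ℕ → List (Fin n) → Fin n) (R : ℕ → List (Fin n) → Prop) (v : ℕ → Fin n),
      (Pre f R ψ [true, true] 0 v ↔ ∀ x z, Pool.Agent.H71.PX.Oa
        (Pool.Agent.H71.PX.deca e R) U Hh Vv x (f i [x]) z) := by
    intro f R v
    simp only [Pre, hψS, hS, sgT_zero, sgT_one, sgT_two, Tm.val]
    simp [Function.update]
  constructor
  · rintro ⟨hn, f, R, hR⟩
    have : NeZero n := ⟨hn.ne'⟩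
    exact ⟨hn, Pool.Agent.H70.PX.A1.pf_A1 Q U Hh Vv n (Pool.Agent.H71.PX.deca e R) hn
      fun x => ⟨f i [x], fun z => (key f R fun _ => 0).1 (hR _) x z⟩⟩
  · rintro ⟨hn, t, ht⟩
    obtain ⟨m, hm⟩ := Pool.Agent.H32.PX.A2.pf_A2 Q U Hh Vv n t hn ht
    obtain ⟨R, hR⟩ := (Pool.Agent.H32.PX.EN.pf_EN (Fin n) Q e he).2 m
    choose g hg using hm
    refine ⟨hn, fun _ l => (l.map g).headD ⟨0, hn⟩, R, fun v => (key _ R v).2 ?_⟩
    rw [hR]
    exact fun x z => hg x z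

end Pool.Agent.H36.FX
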