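import Pool.Agent.H71.FX.Targets

/-!
# The rules for blocks are conditions
-/

set_option autoImplicit false

namespace Pool.Agent.H36.FX

open Pool.Agent.H71.FX Pool.Agent.H71.PF Pool.Agent.H8.PL

/-- words with one letter are iterates -/
theorem wv_rep {α : Type} (f g : α → α) (i : ℕ) (z : α) :
    wv f g (List.replicate i true) z = g^[i] z := by
  induction i with
  | zero => rfl
  | succ i ih =>
    rw [Function.iterate_succ_apply', ← ih]
    rfl

theorem wv_frep {α : Type} (f g : α → α) (i : ℕ) (z : α) :
    wv f g (false :: List.replicate i true) z = f (g^[i] z) := by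
  rw [← wv_rep f g i z]
  rfl

theorem wv_ffrep {α : Type} (f g : α → α) (i : ℕ) (z : α) :
    wv f g (false :: false :: List.replicate i true) z = f (f (g^[i] z)) := by
  rw [← wv_rep f g i z]
  rfl

/-- **Blocks.** -/
theorem pf_DK : T_DK := by
  intro ℓ b
  have e1 : DB (fun _ _ g x y => g^[ℓ] (bif b then y else x) = (bif b then y else x)) :=
    (DB.eq (List.replicate ℓ true) [] b b).congr fun α f g x y => by
      show wv f g (List.replicate ℓ true) (bif b then y else x) = (bif b then y else x) ↔ _
      rw [wv_rep]
  have e2 : ∀ i : ℕ, DB (fun _ f g x y => f (g^[i] (bif b then y else x)) =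
      g^[i] (bif b then y else x)) := fun i =>
    (DB.eq (false :: List.replicate i true) (List.replicate i true) b b).congr
      fun α f g x y => by rw [wv_frep, wv_rep]
  have e3 : DB (fun _ f _ x y => f (bif b then y else x) = (bif b then y else x)) :=
    (DB.eq [false] [] b b).congr fun α f g x y => Iff.rfl
  have e4 : ∀ i : ℕ, DB (fun _ f g x y => f (f (g^[i] (bif b then y else x))) =
      f (g^[i] (bif b then y else x))) := fun i =>
    (DB.eq (false :: false :: List.replicate i true) (false :: List.replicate i true) b b).congr
      fun α f g x y => by rw [wv_frep, wv_ffrep]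
  refine ⟨?_, e3, ?_, ?_⟩
  · exact e1.and ((DB.exLt fun i _ => e2 i).and (e3.imp
      ((DB.allLt fun i _ => (DB.const (0 < i)).imp (e2 i).not).and
        (DB.allLt fun i _ => e4 i))))
  · exact (DB.eq (List.replicate ℓ true) [] true false).congr fun α f g x y => by
      show wv f g (List.replicate ℓ true) y = x ↔ _
      rw [wv_rep]
  · exact (DB.eq [] [] false true).congr fun α f g x y => Iff.rfl

end Pool.Agent.H36.FX
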