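import Pool.Agent.H71.FX.Targets2

/-!
# Two windows which look alike
-/

set_option autoImplicit false

namespace Pool.Agent.H36.FX

open Pool.Agent.H71.FX Pool.Agent.H71.PF

/-- the finite type of the indices -/
abbrev II (P : Pr) : Type := Fin (6 * P.B + 1) × Fin P.K × Fin (P.D + 1)

/-- the index -/
def iota (P : Pr) (u : II P) : ℕ × ℕ × ℕ := (u.1, u.2.1, u.2.2)

theorem iota_ix (P : Pr) (u : II P) : Ix P (iota P u) :=
  ⟨Nat.lt_succ_iff.1 u.1.2, u.2.1.2, Nat.lt_succ_iff.1 u.2.2.2⟩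

theorem iota_surj (P : Pr) (v : ℕ × ℕ × ℕ) (hv : Ix P v) : ∃ u : II P, iota P u = v :=
  ⟨(⟨v.1, Nat.lt_succ_of_le hv.1⟩, ⟨v.2.1, hv.2.1⟩, ⟨v.2.2, Nat.lt_succ_of_le hv.2.2⟩), rfl⟩

/-- the types of positions -/
abbrev YY (P : Pr) : Type := Fin P.J × (Σ n : Fin (P.r + 1), (Fin (n : ℕ) → II P)) → Prop

/-- the type of a position -/
def tau {α : Type} (P : Pr) (m : Sk α) (e : ℕ → α) (p : ℕ) : YY P :=
  fun x => m.R x.1 (List.ofFn fun t => Wd m e p (iota P (x.2.2 t)))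

theorem tau_rel {α : Type} {P : Pr} {m : Sk α} {e : ℕ → α} {p q : ℕ}
    (h : tau P m e p = tau P m e q) (j : ℕ) (l : List (ℕ × ℕ × ℕ)) (hj : j < P.J)
    (hl : l.length ≤ P.r) (hI : ∀ u ∈ l, Ix P u) :
    m.R j (l.map (Wd m e p)) ↔ m.R j (l.map (Wd m e q)) := by
  have h1 : ∀ t : Fin l.length, ∃ u : II P, iota P u = l.get t := fun t =>
    iota_surj P _ (hI _ (List.get_mem l t))
  choose u hu using h1
  have h2 : ∀ p : ℕ, (List.ofFn fun t => Wd m e p (iota P (u t))) = l.map (Wd m e p) := by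
    intro p
    have h3 : (fun t => Wd m e p (iota P (u t))) = Wd m e p ∘ l.get := by
      funext t
      rw [hu t]
      rfl
    rw [h3, ← List.map_ofFn, List.ofFn_get]
  have h4 := congrFun h (⟨j, hj⟩, ⟨⟨l.length, Nat.lt_succ_of_le hl⟩, u⟩)
  have h5 : m.R j (List.ofFn fun t => Wd m e p (iota P (u t))) =
    m.R j (List.ofFn fun t => Wd m e q (iota P (u t))) := h4
  rw [h2 p, h2 q] at h5
  exact iff_of_eq h5

/-- the colours of pairs of positions -/
def Clr {α : Type} (P : Pr) (m : Sk α) (e : ℕ → α) (p q : ℕ) (z : YY P ⊕ (II P × II P)) : Prop :=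
  (tau P m e p ≠ tau P m e q ∧ z = Sum.inl (tau P m e p)) ∨
    ∃ u v : II P, z = Sum.inr (u, v) ∧ Wd m e p (iota P u) = Wd m e q (iota P v) ∧
      Wd m e q (iota P u) ≠ Wd m e p (iota P u)

theorem exists_clr {α : Type} {P : Pr} {m : Sk α} {e : ℕ → α} {p q : ℕ}
    (h : ¬ Alike P m e p q) : ∃ z, Clr P m e p q z := by
  by_cases ht : tau P m e p = tau P m e q
  · have h1 : ¬ ∀ u v, Ix P u → Ix P v → Wd m e p u = Wd m e q v → Wd m e q u = Wd m e p u :=
      fun h2 => h ⟨h2, fun j l hj _ hl hI => tau_rel ht j l hj hl hI⟩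
    push Not at h1
    obtain ⟨u, v, hu, hv, h3, h4⟩ := h1
    obtain ⟨u', rfl⟩ := iota_surj P u hu
    obtain ⟨v', rfl⟩ := iota_surj P v hv
    exact ⟨Sum.inr (u', v'), Or.inr ⟨u', v', rfl, h3, h4⟩⟩
  · exact ⟨_, Or.inl ⟨ht, rfl⟩⟩

theorem clr_triangle {α : Type} {P : Pr} {m : Sk α} {e : ℕ → α} {p q s : ℕ}
    {z : YY P ⊕ (II P × II P)} (h1 : Clr P m e p q z) (h2 : Clr P m e p s z)
    (h3 : Clr P m e q s z) : False := by
  rcases h1 with ⟨h1, h1'⟩ | ⟨u, v, h1, h1', h1''⟩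
  · rcases h3 with ⟨h3, h3'⟩ | ⟨u, v, h3, -⟩
    · exact h1 (Sum.inl.inj (h1'.symm.trans h3'))
    · rw [h1'] at h3
      exact absurd h3 (by simp)
  · rcases h2 with ⟨h2, h2'⟩ | ⟨u', v', h2, h2', -⟩
    · rw [h1] at h2'
      exact absurd h2' (by simp)
    · rcases h3 with ⟨h3, h3'⟩ | ⟨u'', v'', h3, h3', -⟩
      · rw [h1] at h3'
        exact absurd h3' (by simp)
      · obtain ⟨e1, e2⟩ := Prod.mk.inj (Sum.inr.inj (h1.symm.trans h2))
        obtain ⟨e3, e4⟩ := Prod.mk.inj (Sum.inr.inj (h1.symm.trans h3))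
        rw [← e1, ← e2] at h2'
        rw [← e3, ← e4] at h3'
        exact h1'' (h3'.trans h2'.symm)

/-- **Two windows which look alike.** -/
theorem pf_PR (rm : T_RM) : T_PR := by
  classical
  intro P
  have hfin : Finite (YY P ⊕ (II P × II P)) := inferInstance
  let c : ℕ := Nat.card (YY P ⊕ (II P × II P))
  let cd : (YY P ⊕ (II P × II P)) ≃ Fin c := Finite.equivFin _
  obtain ⟨n, hn⟩ := rm c
  refine ⟨n * (6 * P.B + 1), fun α m e => ?_⟩
  by_contra hcon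
  push Not at hcon
  have hz : ∀ i j : ℕ, i < j ∧ j < n → ∃ z, Clr P m e (i * (6 * P.B + 1)) (j * (6 * P.B + 1)) z := by
    rintro i j ⟨hij, hjn⟩
    refine exists_clr (hcon _ _ ?_ ?_)
    · have h1 : (i + 1) * (6 * P.B + 1) ≤ j * (6 * P.B + 1) := Nat.mul_le_mul_right _ hij
      rw [Nat.add_mul, Nat.one_mul] at h1
      omega
    · exact Nat.mul_le_mul_right _ hjn.le
  let col : ℕ → ℕ → ℕ := fun i j => if h : i < j ∧ j < n then (cd (hz i j h).choose : ℕ) else 0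
  have hcol : ∀ i j (h : i < j ∧ j < n), col i j = (cd (hz i j h).choose : ℕ) :=
    fun i j h => dif_pos h
  obtain ⟨i, j, k, hij, hjk, hkn, h1, h2⟩ := hn col fun i j hij hjn => by
    rw [hcol i j ⟨hij, hjn⟩]
    exact (cd _).2
  have a1 : i < j ∧ j < n := ⟨hij, hjk.trans hkn⟩
  have a2 : i < k ∧ k < n := ⟨hij.trans hjk, hkn⟩
  have a3 : j < k ∧ k < n := ⟨hjk, hkn⟩
  rw [hcol i j a1, hcol i k a2] at h1
  rw [hcol i k a2, hcol j k a3] at h2
  have e1 : (hz i j a1).choose = (hz i k a2).choose := cd.injective (Fin.ext h1)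
  have e2 : (hz i k a2).choose = (hz j k a3).choose := cd.injective (Fin.ext h2)
  have s1 := (hz i j a1).choose_spec
  have s2 := (hz i k a2).choose_spec
  have s3 := (hz j k a3).choose_spec
  rw [e1, e2] at s1
  rw [e2] at s2
  exact clr_triangle s1 s2 s3

end Pool.Agent.H36.FX
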